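import Pool.Agent.N889.AO.Stm

/-! AO/REDA (project AO of helper889): a finitely generated subring of `ℂ` maps to a number field. -/

set_option autoImplicit false

namespace Pool.Agent.N82.AO

open Pool.Agent.N889.AO

theorem nf (K : Type) [Field K] [a : Algebra ℚ K] (h : Module.Finite ℚ K) : NumberField K := by
  have hc : CharZero K := charZero_of_injective_algebraMap (algebraMap ℚ K).injective
  have e : a = DivisionRing.toRatAlgebra := Subsingleton.elim _ _
  subst e
  exact @NumberField.mk K _ hc h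

theorem exists_nf (A : Type) [CommRing A] [Nontrivial A] [Algebra ℚ A] [Algebra.FiniteType ℚ A] :
    ∃ (K : Type) (_ : Field K) (_ : NumberField K), Nonempty (A →+* K) := by
  obtain ⟨m, hm⟩ := Ideal.exists_maximal A
  let fK : Field (A ⧸ m) := Ideal.Quotient.field m
  have hfin : Module.Finite ℚ (A ⧸ m) := finite_of_finite_type_of_isJacobsonRing ℚ (A ⧸ m)
  exact ⟨A ⧸ m, fK, nf (A ⧸ m) hfin, ⟨Ideal.Quotient.mk m⟩⟩

theorem stmRedA : StmRedA := by
  intro S
  have hft : Algebra.FiniteType ℚ (Algebra.adjoin ℚ (S : Set ℂ)) :=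
    (Subalgebra.fg_iff_finiteType _).1 (Subalgebra.fg_adjoin_finset S)
  obtain ⟨K, fK, nK, ⟨φ⟩⟩ := exists_nf (Algebra.adjoin ℚ (S : Set ℂ))
  have hle : ∀ x ∈ Algebra.adjoin ℤ (S : Set ℂ), x ∈ Algebra.adjoin ℚ (S : Set ℂ) := by
    intro x hx
    induction hx using Algebra.adjoin_induction with
    | mem x hx => exact Algebra.subset_adjoin hx
    | algebraMap r =>
      have : (algebraMap ℤ ℂ) r = ((r : ℤ) : ℂ) := rfl
      rw [this]
      exact intCast_mem _ r
    | add x y _ _ hx hy => exact add_mem hx hy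
    | mul x y _ _ hx hy => exact mul_mem hx hy
  let j : Algebra.adjoin ℤ (S : Set ℂ) →+* Algebra.adjoin ℚ (S : Set ℂ) :=
    { toFun := fun x => ⟨x.1, hle x.1 x.2⟩
      map_one' := rfl
      map_mul' := fun _ _ => rfl
      map_zero' := rfl
      map_add' := fun _ _ => rfl }
  exact ⟨K, fK, nK, ⟨φ.comp j⟩⟩

end Pool.Agent.N82.AO
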